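import Mathlib

/-!
# Graphs with faces, as in a simple polytope

Abstract face structure used for the equality case of the bound on the number of nodes of the
graph of a simple polytope which can be totally separated by a given number of nodes.
-/

namespace Pool.Agent.Helper82.TotSep

open Finset

/-- The faces of a simple `d`-polytope seen from its graph: the neighbours of `v` are `nb v i`,
`supp v w` is the set of the coordinates at `v` which do not vanish at `w`, so the faces through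
`v` are the sets `{w | supp v w ⊆ S}`; `ht` is a generic linear functional and `ori` orients the
`2`-faces. -/
structure FaceData {V : Type*} (G : SimpleGraph V) (d : ℕ) where
  nb : V → Fin d → V
  supp : V → V → Finset (Fin d)
  adj_nb : ∀ v i, G.Adj v (nb v i)
  nb_surj : ∀ v x, G.Adj v x → ∃ i, nb v i = x
  supp_self : ∀ v, supp v v = ∅
  supp_nb : ∀ v i, supp v (nb v i) = {i}
  eq_self : ∀ v w, supp v w = ∅ → w = v
  eq_nb : ∀ v w i, supp v w = {i} → w = nb v i
  trans : ∀ v w (S : Finset (Fin d)), supp v w ⊆ S → ∃ S' : Finset (Fin d), S'.card = S.card ∧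
    ∀ x, supp v x ⊆ S ↔ supp w x ⊆ S'
  conn : ∀ v (S : Finset (Fin d)) (T : Finset V) (C : Set V), T.card < S.card →
    (∀ x y, G.Adj x y → supp v x ⊆ S → supp v y ⊆ S → x ∉ T → y ∉ T → (x ∈ C ↔ y ∈ C)) →
    ∀ a b, supp v a ⊆ S → supp v b ⊆ S → a ∉ T → b ∉ T → (a ∈ C ↔ b ∈ C)
  compl : ∀ v (S : Finset (Fin d)) l, l ∈ S → ∀ C : Set V,
    (∀ x y, G.Adj x y → supp v x ⊆ S → l ∈ supp v x → supp v y ⊆ S → l ∈ supp v y →
      (x ∈ C ↔ y ∈ C)) →
    ∀ a b, supp v a ⊆ S → l ∈ supp v a → supp v b ⊆ S → l ∈ supp v b → (a ∈ C ↔ b ∈ C)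
  ht : V → ℝ
  ht_inj : Function.Injective ht
  up : ∀ v w, ht v < ht w → ∃ i ∈ supp v w, ht v < ht (nb v i)
  up_of : ∀ v w, w ≠ v → (∀ i ∈ supp v w, ht v < ht (nb v i)) → ht v < ht w
  ori : ∀ v i j, i ≠ j → ∃ o : V → V → Prop,
    (∀ x y, G.Adj x y → supp v x ⊆ {i, j} → supp v y ⊆ {i, j} → (o x y ↔ ¬ o y x)) ∧
    ∀ x y z, G.Adj x y → G.Adj x z → y ≠ z → supp v x ⊆ {i, j} → supp v y ⊆ {i, j} →
      supp v z ⊆ {i, j} → (o x y ↔ ¬ o x z)

variable {V : Type*} {G : SimpleGraph V} {d : ℕ} (L : FaceData G d)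

lemma FaceData.nb_injective (v : V) : Function.Injective (L.nb v) := by
  intro i j h
  have h1 := L.supp_nb v i
  rw [h, L.supp_nb v j] at h1
  exact (Finset.singleton_injective h1).symm

/-- `F` is the set of nodes of a face of dimension `k`. -/
def IsFace (k : ℕ) (F : Finset V) : Prop :=
  ∃ (v : V) (S : Finset (Fin d)), S.card = k ∧ ∀ x, x ∈ F ↔ L.supp v x ⊆ S

open Classical in
/-- the edges at `w` which lie in `F` -/
noncomputable def dir (F : Finset V) (w : V) : Finset (Fin d) :=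
  Finset.univ.filter fun i => L.nb w i ∈ F

variable {L}

lemma mem_dir {F : Finset V} {w : V} {i : Fin d} : i ∈ dir L F w ↔ L.nb w i ∈ F := by
  simp [dir]

lemma IsFace.nonempty {k : ℕ} {F : Finset V} (hF : IsFace L k F) : F.Nonempty := by
  obtain ⟨v, S, _, hS⟩ := hF
  exact ⟨v, (hS v).mpr (by rw [L.supp_self]; exact Finset.empty_subset _)⟩

/-- A face seen from any of its nodes. -/
lemma IsFace.spec {k : ℕ} {F : Finset V} (hF : IsFace L k F) {w : V} (hw : w ∈ F) :
    (dir L F w).card = k ∧ ∀ x, x ∈ F ↔ L.supp w x ⊆ dir L F w := by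
  obtain ⟨v, S, hS, hF⟩ := hF
  obtain ⟨S', hS', h⟩ := L.trans v w S ((hF w).mp hw)
  have h1 : ∀ x, x ∈ F ↔ L.supp w x ⊆ S' := fun x => (hF x).trans (h x)
  have h2 : dir L F w = S' := by
    ext i
    rw [mem_dir, h1, L.supp_nb, Finset.singleton_subset_iff]
  rw [h2]
  exact ⟨hS'.trans hS, h1⟩

lemma IsFace.card_dir {k : ℕ} {F : Finset V} (hF : IsFace L k F) {w : V} (hw : w ∈ F) :
    (dir L F w).card = k := (hF.spec hw).1

lemma IsFace.mem_iff {k : ℕ} {F : Finset V} (hF : IsFace L k F) {w : V} (hw : w ∈ F) {x : V} :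
    x ∈ F ↔ L.supp w x ⊆ dir L F w := (hF.spec hw).2 x

lemma IsFace.supp_subset {k : ℕ} {F : Finset V} (hF : IsFace L k F) {w : V} (hw : w ∈ F) {x : V}
    (hx : x ∈ F) : L.supp w x ⊆ dir L F w := (hF.mem_iff hw).mp hx

/-- Balinski's theorem in a face. -/
lemma IsFace.conn {k : ℕ} {F : Finset V} (hF : IsFace L k F) (T : Finset V) (C : Set V)
    (hT : T.card < k)
    (hC : ∀ x y, G.Adj x y → x ∈ F → y ∈ F → x ∉ T → y ∉ T → (x ∈ C ↔ y ∈ C)) {a b : V}
    (ha : a ∈ F) (hb : b ∈ F) (haT : a ∉ T) (hbT : b ∉ T) : a ∈ C ↔ b ∈ C := by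
  obtain ⟨v, S, hS, hF⟩ := hF
  refine L.conn v S T C (by rw [hS]; exact hT) (fun x y hxy hx hy hxT hyT => ?_) a b
    ((hF a).mp ha) ((hF b).mp hb) haT hbT
  exact hC x y hxy ((hF x).mpr hx) ((hF y).mpr hy) hxT hyT

/-- The edge at `w` which leaves the facet `H` of `F`. -/
lemma IsFace.exists_out {k : ℕ} {F H : Finset V} (hF : IsFace L (k + 1) F) (hH : IsFace L k H)
    (hHF : H ⊆ F) {w : V} (hw : w ∈ H) :
    ∃ l, L.nb w l ∈ F ∧ L.nb w l ∉ H ∧ (dir L H w) = (dir L F w).erase l ∧ l ∈ dir L F w ∧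
      l ∉ dir L H w := by
  have h1 := hF.card_dir (hHF hw)
  have h2 := hH.card_dir hw
  have hsub : dir L H w ⊆ dir L F w := fun i hi => mem_dir.mpr (hHF (mem_dir.mp hi))
  obtain ⟨l, hl⟩ : ∃ l, l ∈ dir L F w \ dir L H w := by
    apply Finset.card_pos.mp
    rw [Finset.card_sdiff_of_subset hsub]
    omega
  rw [Finset.mem_sdiff] at hl
  refine ⟨l, mem_dir.mp hl.1, fun h => hl.2 (mem_dir.mpr h), ?_, hl.1, hl.2⟩
  refine Finset.eq_of_subset_of_card_le (fun i hi => ?_) ?_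
  · exact Finset.mem_erase.mpr ⟨fun h => hl.2 (h ▸ hi), hsub hi⟩
  · rw [Finset.card_erase_of_mem hl.1]
    omega

/-- The complement of a facet in a face is connected. -/
lemma IsFace.compl {k : ℕ} {F H : Finset V} (hF : IsFace L (k + 1) F) (hH : IsFace L k H)
    (hHF : H ⊆ F) (C : Set V)
    (hC : ∀ x y, G.Adj x y → x ∈ F → x ∉ H → y ∈ F → y ∉ H → (x ∈ C ↔ y ∈ C)) {a b : V}
    (ha : a ∈ F) (haH : a ∉ H) (hb : b ∈ F) (hbH : b ∉ H) : a ∈ C ↔ b ∈ C := by
  obtain ⟨w, hw⟩ := hH.nonempty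
  obtain ⟨l, _, _, hdir, hl, _⟩ := hF.exists_out hH hHF hw
  have key : ∀ x ∈ F, x ∉ H ↔ l ∈ L.supp w x := by
    intro x hx
    have hs := hF.supp_subset (hHF hw) hx
    rw [hH.mem_iff hw, hdir]
    constructor
    · intro h
      by_contra hls
      apply h
      intro i hi
      exact Finset.mem_erase.mpr ⟨fun h' => hls (h' ▸ hi), hs hi⟩
    · intro h h'
      exact (Finset.mem_erase.mp (h' h)).1 rfl
  refine L.compl w (dir L F w) l hl C (fun x y hxy hx hlx hy hly => ?_) a b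
    (hF.supp_subset (hHF hw) ha) ((key a ha).mp haH) (hF.supp_subset (hHF hw) hb)
    ((key b hb).mp hbH)
  have hxF := (hF.mem_iff (hHF hw)).mpr hx
  have hyF := (hF.mem_iff (hHF hw)).mpr hy
  exact hC x y hxy hxF ((key x hxF).mpr hlx) hyF ((key y hyF).mpr hly)

section

variable [Fintype V]

open Classical in
/-- the face at `w` spanned by the edges in `S` -/
noncomputable def faceOf (L : FaceData G d) (w : V) (S : Finset (Fin d)) : Finset V :=
  Finset.univ.filter fun x => L.supp w x ⊆ S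

lemma mem_faceOf {w x : V} {S : Finset (Fin d)} : x ∈ faceOf L w S ↔ L.supp w x ⊆ S := by
  simp [faceOf]

lemma self_mem_faceOf {w : V} {S : Finset (Fin d)} : w ∈ faceOf L w S := by
  rw [mem_faceOf, L.supp_self]
  exact Finset.empty_subset _

lemma isFace_faceOf (w : V) (S : Finset (Fin d)) : IsFace L S.card (faceOf L w S) :=
  ⟨w, S, rfl, fun _ => mem_faceOf⟩

lemma dir_faceOf (w : V) (S : Finset (Fin d)) : dir L (faceOf L w S) w = S := by
  ext i
  rw [mem_dir, mem_faceOf, L.supp_nb, Finset.singleton_subset_iff]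

lemma IsFace.eq_faceOf {k : ℕ} {F : Finset V} (hF : IsFace L k F) {w : V} (hw : w ∈ F) :
    F = faceOf L w (dir L F w) := by
  ext x
  rw [mem_faceOf, hF.mem_iff hw]

lemma IsFace.faceOf_subset {k : ℕ} {F : Finset V} (hF : IsFace L k F) {w : V} (hw : w ∈ F)
    {S : Finset (Fin d)} (hS : S ⊆ dir L F w) : faceOf L w S ⊆ F := by
  intro x hx
  rw [mem_faceOf] at hx
  exact (hF.mem_iff hw).mpr (hx.trans hS)

/-- the facets of `F` at `w` -/
lemma IsFace.facetOf {k : ℕ} {F : Finset V} (hF : IsFace L (k + 1) F) {w : V} (hw : w ∈ F)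
    {l : Fin d} (hl : l ∈ dir L F w) :
    IsFace L k (faceOf L w ((dir L F w).erase l)) ∧ faceOf L w ((dir L F w).erase l) ⊆ F := by
  refine ⟨?_, hF.faceOf_subset hw (Finset.erase_subset _ _)⟩
  have h := isFace_faceOf (L := L) w ((dir L F w).erase l)
  rwa [Finset.card_erase_of_mem hl, hF.card_dir hw, Nat.add_sub_cancel] at h

lemma IsFace.eq_of_dir_eq {k k' : ℕ} {F F' : Finset V} (hF : IsFace L k F) (hF' : IsFace L k' F')
    {w : V} (hw : w ∈ F) (hw' : w ∈ F') (h : dir L F w = dir L F' w) : F = F' := by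
  rw [hF.eq_faceOf hw, hF'.eq_faceOf hw', h]

lemma isFace_univ [Nonempty V] : IsFace L d (Finset.univ : Finset V) := by
  obtain ⟨v⟩ := (inferInstance : Nonempty V)
  exact ⟨v, Finset.univ, by simp, fun x => by simp⟩

end

end Pool.Agent.Helper82.TotSep
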