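import Mathlib
import Pool.Agent.Helper82.TotSep.Face

/-!
# The structure in the case of equality

`M` is a set of nodes and `lab` a labelling of the nodes which is constant along the edges outside
`M` (its values are the components of the complement of `M`).
-/

namespace Pool.Agent.Helper82.TotSep

open Finset

variable {V : Type*} {G : SimpleGraph V} {d : ℕ} {Λ : Type*}

/-- the node `w` sees the label `a` inside `F` -/
def Sees (L : FaceData G d) (M : Finset V) (lab : V → Λ) (F : Finset V) (w : V) (a : Λ) : Prop :=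
  ∃ i ∈ dir L F w, L.nb w i ∉ M ∧ lab (L.nb w i) = a

open Classical in
/-- the nodes of `M` in `F` which see the label `a` inside `F` -/
noncomputable def seers (L : FaceData G d) (M : Finset V) (lab : V → Λ) (F : Finset V) (a : Λ) :
    Finset V :=
  F.filter fun w => w ∈ M ∧ Sees L M lab F w a

open Classical in
/-- the nodes of `M` in `F` -/
noncomputable def inner (M F : Finset V) : Finset V := F.filter fun x => x ∈ M

open Classical in
/-- the labels in `F` -/
noncomputable def labs (M : Finset V) (lab : V → Λ) (F : Finset V) : Finset Λ :=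
  (F.filter fun x => x ∉ M).image lab

lemma mem_seers {L : FaceData G d} {M : Finset V} {lab : V → Λ} {F : Finset V} {w : V} {a : Λ} :
    w ∈ seers L M lab F a ↔ w ∈ F ∧ w ∈ M ∧ Sees L M lab F w a := by
  simp [seers]

lemma mem_inner {M F : Finset V} {x : V} : x ∈ inner M F ↔ x ∈ F ∧ x ∈ M := by
  simp [inner]

lemma mem_labs {M : Finset V} {lab : V → Λ} {F : Finset V} {a : Λ} :
    a ∈ labs M lab F ↔ ∃ x, x ∈ F ∧ x ∉ M ∧ lab x = a := by
  simp [labs, and_assoc]

lemma Sees.mono {L : FaceData G d} {M : Finset V} {lab : V → Λ} {F H : Finset V} (h : H ⊆ F)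
    {w : V} {a : Λ} (hs : Sees L M lab H w a) : Sees L M lab F w a := by
  obtain ⟨i, hi, h1, h2⟩ := hs
  exact ⟨i, mem_dir.mpr (h (mem_dir.mp hi)), h1, h2⟩

/-- At least as many labels as nodes of `M` in the face `F`. -/
def Tight (L : FaceData G d) (M : Finset V) (lab : V → Λ) (k : ℕ) (F : Finset V) : Prop :=
  IsFace L k F ∧ 2 ≤ (inner M F).card ∧ (inner M F).card ≤ (labs M lab F).card

/-- The structure in the case of equality. -/
structure Str (L : FaceData G d) (M : Finset V) (lab : V → Λ) (k : ℕ) (F : Finset V) : Prop where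
  face : IsFace L k F
  two : 2 ≤ (inner M F).card
  card_eq : (labs M lab F).card = (inner M F).card
  notMem : ∀ w ∈ M, w ∈ F → ∀ i ∈ dir L F w, L.nb w i ∉ M
  inj : ∀ w ∈ M, w ∈ F → ∀ i ∈ dir L F w, ∀ j ∈ dir L F w,
    lab (L.nb w i) = lab (L.nb w j) → i = j
  card_seers : ∀ a ∈ labs M lab F, (seers L M lab F a).card = k
  pair : ∀ w ∈ M, w ∈ F → ∀ i ∈ dir L F w, ∀ j ∈ dir L F w, i ≠ j →
    ∃ w' ∈ seers L M lab F (lab (L.nb w i)), L.supp w w' = {i, j}
  uniq : ∀ w ∈ M, w ∈ F → ∀ i ∈ dir L F w, ∀ w' ∈ seers L M lab F (lab (L.nb w i)), w' ≠ w →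
    ∃ j ∈ dir L F w, j ≠ i ∧ L.supp w w' = {i, j}
  uniq' : ∀ w ∈ M, w ∈ F → ∀ i ∈ dir L F w, ∀ w' ∈ seers L M lab F (lab (L.nb w i)),
    ∀ w'' ∈ seers L M lab F (lab (L.nb w i)), L.supp w w' = L.supp w w'' → w' = w''

open Classical in
/-- the faces of dimension `k` contained in `F` -/
noncomputable def facets (L : FaceData G d) (k : ℕ) (F : Finset V) : Finset (Finset V) :=
  F.powerset.filter fun H => IsFace L k H

lemma mem_facets {L : FaceData G d} {k : ℕ} {F H : Finset V} :
    H ∈ facets L k F ↔ H ⊆ F ∧ IsFace L k H := by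
  simp [facets]

open Classical in
/-- The facets of the fat node `x`: for a node of `M` the facets through it, for another node the
facets which contain an edge from `M` to a node with the same label. -/
noncomputable def fat (L : FaceData G d) (M : Finset V) (lab : V → Λ) (k : ℕ) (F : Finset V)
    (x : V) : Finset (Finset V) :=
  (facets L k F).filter fun H => (x ∈ M ∧ x ∈ H) ∨
    (x ∉ M ∧ ∃ w, w ∈ M ∧ w ∈ H ∧ Sees L M lab H w (lab x))

lemma mem_fat {L : FaceData G d} {M : Finset V} {lab : V → Λ} {k : ℕ} {F : Finset V} {x : V}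
    {H : Finset V} : H ∈ fat L M lab k F x ↔ H ∈ facets L k F ∧ ((x ∈ M ∧ x ∈ H) ∨
    (x ∉ M ∧ ∃ w, w ∈ M ∧ w ∈ H ∧ Sees L M lab H w (lab x))) := by
  simp [fat]

end Pool.Agent.Helper82.TotSep
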