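import Mathlib
import Pool.Agent.Helper82.TotSep.P.Equality
import Pool.Agent.Helper82.TotSep.P.Facet
import Pool.Agent.Helper82.TotSep.P.Fat
import Pool.Agent.Helper82.TotSep.P.Local
import Pool.Agent.Helper82.TotSep.P.Sweep

/-!
# Colour classes of facets and the number of nodes in the case of equality
-/

namespace Pool.Agent.Helper82.TotSep

open Finset

variable {V : Type*} [Fintype V] {G : SimpleGraph V} {d : ℕ} {Λ : Type*}

omit [Fintype V] in
/-- Every facet which meets `M` belongs to the fat node of each of its nodes. -/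
lemma Str.mem_fat_of_mem {L : FaceData G d} {M : Finset V} {lab : V → Λ} {k : ℕ} {F H : Finset V}
    (hlab : ∀ x y, G.Adj x y → x ∉ M → y ∉ M → lab x = lab y) (hk : 1 ≤ k)
    (hH : H ∈ facets L k F) (hne : (inner M H).Nonempty) {x : V} (hx : x ∈ H) :
    H ∈ fat L M lab k F x := by
  rw [mem_fat]
  refine ⟨hH, ?_⟩
  by_cases hxM : x ∈ M
  · exact Or.inl ⟨hxM, hx⟩
  · refine Or.inr ⟨hxM, ?_⟩
    by_contra hcon
    push Not at hcon
    obtain ⟨w, hw⟩ := hne
    rw [mem_inner] at hw
    have key : ∀ y z, G.Adj y z → y ∈ H → z ∈ H → y ∉ M ∧ lab y = lab x →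
        z ∉ M ∧ lab z = lab x := by
      intro y z hyz hy hz hyC
      have hzM : z ∉ M := by
        intro hzM
        apply hcon z hzM hz
        rw [← hyC.2]
        exact eq_sees_of_adj hyz hy hyC.1
      exact ⟨hzM, by rw [← hlab y z hyz hyC.1 hzM]; exact hyC.2⟩
    have h := ((mem_facets.mp hH).2.conn ∅ {y | y ∉ M ∧ lab y = lab x}
      (by rw [Finset.card_empty]; omega)
      (fun y z hyz hy hz _ _ => ⟨key y z hyz hy hz, key z y hyz.symm hz hy⟩)
      hx hw.1 (Finset.notMem_empty _) (Finset.notMem_empty _)).mp ⟨hxM, rfl⟩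
    exact h.1 hw.2

open Classical in
/-- The colouring of the facets, near each node. -/
lemma Str.exists_col {L : FaceData G d} {M : Finset V} {lab : V → Λ} {k : ℕ} {F : Finset V}
    (hlab : ∀ x y, G.Adj x y → x ∉ M → y ∉ M → lab x = lab y)
    (hS : Str L M lab (k + 1) F) (hk : 1 ≤ k) :
    ∃ col : V → Finset V → Fin (k + 1), ∀ x ∈ F,
      Set.InjOn (col x) (fat L M lab k F x : Set (Finset V)) ∧
      ∀ y ∈ F, G.Adj x y → ∀ H ∈ fat L M lab k F x, H ∈ fat L M lab k F y →
        col x H = col y H := by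
  have hcard : ∀ x ∈ F, (fat L M lab k F x).card = k + 1 := fun x hx => hS.card_fat hlab hk hx
  have hint : ∀ w ∈ M, w ∈ F → ∀ i ∈ dir L F w,
      (∀ H ∈ fat L M lab k F (L.nb w i), w ∈ H → L.nb w i ∈ H) ∧
        ((fat L M lab k F (L.nb w i)).filter fun H => w ∈ H).card = k :=
    fun w hw hwF i hi => hS.fat_inter hlab hk hw hwF hi
  have hov1 : ∀ w ∈ M, w ∈ F → ∀ y ∈ F, G.Adj w y →
      k ≤ (fat L M lab k F w ∩ fat L M lab k F y).card := by
    intro w hwM hwF y hyF hwy
    obtain ⟨i, rfl⟩ := L.nb_surj w y hwy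
    have h := hint w hwM hwF i (mem_dir.mpr hyF)
    refine h.2.symm.le.trans (Finset.card_le_card ?_)
    intro H hH
    rw [Finset.mem_filter] at hH
    rw [Finset.mem_inter]
    refine ⟨?_, hH.1⟩
    rw [mem_fat]
    exact ⟨(mem_fat.mp hH.1).1, Or.inl ⟨hwM, hH.2⟩⟩
  have hov : ∀ x ∈ F, ∀ y ∈ F, G.Adj x y →
      k ≤ (fat L M lab k F x ∩ fat L M lab k F y).card := by
   intro x hx y hy hxy
   by_cases hxM : x ∈ M
   · exact hov1 x hxM hx y hy hxy
   · by_cases hyM : y ∈ M
     · rw [Finset.inter_comm]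
       exact hov1 y hyM hy x hx hxy.symm
     · have h1 : fat L M lab k F x = fat L M lab k F y := by
         ext H
         rw [mem_fat, mem_fat, hlab x y hxy hxM hyM]
         simp [hxM, hyM]
       rw [h1, Finset.inter_self, hcard y hy]
       omega
  refine sweep hS.face (fat L M lab k F) hcard (fun x hx y hy hxy => ?_) fun Q hQ hQF =>
    hS.local_trivial hlab hk hcard hint hQ hQF
  refine (hov x hx y hy hxy).trans (Finset.card_le_card fun H hH => ?_)
  have h1 := Finset.mem_inter.mp hH
  exact (@Finset.mem_inter _ (fun a b => Classical.propDecidable (a = b)) _ _ _).mpr h1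

/-- A set of pairwise `M`-disjoint facets which cover the nodes of `M`. -/
lemma Str.exists_class {L : FaceData G d} {M : Finset V} {lab : V → Λ} {k : ℕ} {F : Finset V}
    (hlab : ∀ x y, G.Adj x y → x ∉ M → y ∉ M → lab x = lab y)
    (hS : Str L M lab (k + 1) F) (hk : 1 ≤ k) :
    ∃ C : Finset (Finset V), (∀ H ∈ C, H ⊆ F ∧ IsFace L k H ∧ (inner M H).Nonempty) ∧
      ∑ H ∈ C, (inner M H).card = (inner M F).card := by
  classical
  obtain ⟨col, hcol⟩ := hS.exists_col hlab hk
  have hcard : ∀ x ∈ F, (fat L M lab k F x).card = k + 1 := fun x hx => hS.card_fat hlab hk hx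
  set C : Finset (Finset V) := (facets L k F).filter fun H =>
    (inner M H).Nonempty ∧ ∀ x ∈ H, col x H = 0 with hC
  have hCmem : ∀ H, H ∈ C ↔ H ∈ facets L k F ∧ (inner M H).Nonempty ∧ ∀ x ∈ H, col x H = 0 := by
    intro H
    rw [hC, Finset.mem_filter]
  refine ⟨C, fun H hH => ?_, ?_⟩
  · have h := (hCmem H).mp hH
    exact ⟨(mem_facets.mp h.1).1, (mem_facets.mp h.1).2, h.2.1⟩
  · have hU : inner M F = C.biUnion fun H => inner M H := by
      ext w
      rw [Finset.mem_biUnion]
      constructor
      · intro hw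
        have hwF := (mem_inner.mp hw).1
        have hwM := (mem_inner.mp hw).2
        have hsurj : (fat L M lab k F w).image (col w) = Finset.univ := by
          apply Finset.eq_univ_of_card
          rw [Finset.card_image_of_injOn (hcol w hwF).1, hcard w hwF, Fintype.card_fin]
        have h0 : (0 : Fin (k + 1)) ∈ (fat L M lab k F w).image (col w) := by
          rw [hsurj]
          exact Finset.mem_univ _
        obtain ⟨H, hH, hH0⟩ := Finset.mem_image.mp h0
        have hwH : w ∈ H := by
          rcases (mem_fat.mp hH).2 with h | h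
          · exact h.2
          · exact absurd hwM h.1
        have hHf := (mem_fat.mp hH).1
        have hne : (inner M H).Nonempty := ⟨w, mem_inner.mpr ⟨hwH, hwM⟩⟩
        refine ⟨H, (hCmem H).mpr ⟨hHf, hne, fun x hx => ?_⟩, mem_inner.mpr ⟨hwH, hwM⟩⟩
        have hHF := (mem_facets.mp hHf).1
        have key : ∀ y z, G.Adj y z → y ∈ H → z ∈ H → col y H = 0 → col z H = 0 := by
          intro y z hyz hy hz h
          rw [← h]
          exact ((hcol y (hHF hy)).2 z (hHF hz) hyz H (Str.mem_fat_of_mem hlab hk hHf hne hy)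
            (Str.mem_fat_of_mem hlab hk hHf hne hz)).symm
        exact ((mem_facets.mp hHf).2.conn ∅ {y | col y H = 0} (by rw [Finset.card_empty]; omega)
          (fun y z hyz hy hz _ _ => ⟨key y z hyz hy hz, key z y hyz.symm hz hy⟩)
          hwH hx (Finset.notMem_empty _) (Finset.notMem_empty _)).mp hH0
      · rintro ⟨H, hH, hw⟩
        rw [mem_inner] at hw ⊢
        exact ⟨(mem_facets.mp ((hCmem H).mp hH).1).1 hw.1, hw.2⟩
    rw [hU, Finset.card_biUnion]
    intro H hH H' hH' hne
    change Disjoint (inner M H) (inner M H')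
    rw [Finset.disjoint_left]
    intro w hw hw'
    rw [mem_inner] at hw hw'
    have h := (hCmem H).mp hH
    have h' := (hCmem H').mp hH'
    have hwF := (mem_facets.mp h.1).1 hw.1
    apply hne
    apply (hcol w hwF).1
    · exact Finset.mem_coe.mpr (mem_fat.mpr ⟨h.1, Or.inl ⟨hw.2, hw.1⟩⟩)
    · exact Finset.mem_coe.mpr (mem_fat.mpr ⟨h'.1, Or.inl ⟨hw'.2, hw'.1⟩⟩)
    · rw [h.2.2 w hw.1, h'.2.2 w hw'.1]

lemma three_pow {k a b c m : ℕ} (ha : a < k) (hb : b < k) (hc : c < k)
    (hsum : m + 2 ^ a + 2 ^ b + 2 ^ c = 3 * 2 ^ k) (hm : m < 2 ^ (k + 1)) :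
    ∃ j < k + 1, m + 2 ^ j = 2 ^ (k + 1) := by
  obtain ⟨t, rfl⟩ : ∃ t, k = t + 1 := ⟨k - 1, by omega⟩
  have hp : ∀ x, x < t + 1 → x = t ∨ 2 * 2 ^ x ≤ 2 ^ t := by
    intro x hx
    rcases Nat.lt_or_ge x t with h | h
    · right
      rw [← pow_succ']
      exact Nat.pow_le_pow_right (by omega) h
    · left
      omega
  have h1 : 2 ^ (t + 1) = 2 * 2 ^ t := pow_succ' 2 t
  have h2 : 2 ^ (t + 1 + 1) = 4 * 2 ^ t := by rw [pow_succ', h1]; ring
  rw [h1] at hsum
  rw [h2] at hm ⊢
  rcases hp a ha with rfl | ha'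
  · rcases hp b hb with rfl | hb'
    · exact ⟨c, by omega, by omega⟩
    · rcases hp c hc with rfl | hc'
      · exact ⟨b, by omega, by omega⟩
      · exfalso
        omega
  · rcases hp b hb with rfl | hb'
    · rcases hp c hc with rfl | hc'
      · exact ⟨a, by omega, by omega⟩
      · exfalso
        omega
    · exfalso
      rcases hp c hc with rfl | hc' <;> omega

/-- **Main step.**  If a face of dimension `k` has `m < 2 ^ k` nodes of `M` and at least `m ≥ 2`
labels, then `m = 2 ^ k - 2 ^ j`. -/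
theorem Tight.eq_two_pow_sub {L : FaceData G d} {M : Finset V} {lab : V → Λ}
    (hlab : ∀ x y, G.Adj x y → x ∉ M → y ∉ M → lab x = lab y) :
    ∀ (k : ℕ) (F : Finset V), Tight L M lab k F → (inner M F).card < 2 ^ k →
      ∃ j < k, (inner M F).card + 2 ^ j = 2 ^ k := by
  classical
  intro k
  induction k with
  | zero =>
    intro F hT hlt
    have := hT.2.1
    rw [pow_zero] at hlt
    omega
  | succ k ih =>
    intro F hT hlt
    have htwo := hT.2.1
    have hS := Tight.str hlab hT
    rcases Nat.lt_or_ge k 2 with hk | hk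
    · rcases Nat.eq_zero_or_pos k with rfl | hk0
      · exfalso
        rw [zero_add, pow_one] at hlt
        omega
      · have hk1 : k = 1 := by omega
        subst hk1
        rw [show (2 : ℕ) ^ (1 + 1) = 4 from rfl] at hlt ⊢
        rcases Nat.lt_or_ge (inner M F).card 3 with h | h
        · exact ⟨1, by omega, by omega⟩
        · exact ⟨0, by omega, by omega⟩
    · obtain ⟨C, hC, hsum⟩ := hS.exists_class hlab (by omega)
      have hTH : ∀ H ∈ C, Tight L M lab k H ∧ 2 * (inner M H).card ≤ (inner M F).card := by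
        intro H hH
        obtain ⟨hHF, hHf, hne⟩ := hC H hH
        obtain ⟨h1, h2, h3⟩ := hS.facet hlab hHf hHF (by omega) hne
        exact ⟨⟨hHf, h3 hk, h1⟩, by omega⟩
      have hlow : ∀ H ∈ C, 2 ^ k ≤ 2 * (inner M H).card := fun H hH =>
        (hTH H hH).1.two_pow_le hlab fun k F h => Tight.str hlab h
      have hpow : 2 ^ (k + 1) = 2 * 2 ^ k := pow_succ' 2 k
      have hih : ∀ H ∈ C, ∃ j < k, (inner M H).card + 2 ^ j = 2 ^ k := by
        intro H hH
        refine ih H (hTH H hH).1 ?_
        have := (hTH H hH).2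
        omega
      have hcardC : C.card ≤ 3 := by
        by_contra hcon
        push Not at hcon
        have h1 : C.card * 2 ^ k ≤ 2 * (inner M F).card := by
          rw [← hsum, Finset.mul_sum, ← smul_eq_mul, ← Finset.sum_const]
          exact Finset.sum_le_sum hlow
        have h2 : 4 * 2 ^ k ≤ C.card * 2 ^ k := Nat.mul_le_mul_right _ hcon
        omega
      have hcases : C.card = 0 ∨ C.card = 1 ∨ C.card = 2 ∨ C.card = 3 := by omega
      rcases hcases with h | h | h | h
      · exfalso
        rw [Finset.card_eq_zero] at h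
        rw [h, Finset.sum_empty] at hsum
        omega
      · exfalso
        obtain ⟨H, rfl⟩ := Finset.card_eq_one.mp h
        rw [Finset.sum_singleton] at hsum
        have := (hTH H (Finset.mem_singleton_self H)).2
        omega
      · obtain ⟨H, H', hne, rfl⟩ := Finset.card_eq_two.mp h
        rw [Finset.sum_pair hne] at hsum
        have h1 := (hTH H (by simp)).2
        have h2 := (hTH H' (by simp)).2
        obtain ⟨j, hj, hj'⟩ := hih H (by simp)
        refine ⟨j + 1, by omega, ?_⟩
        rw [hpow, pow_succ']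
        omega
      · obtain ⟨H, H', H'', h12, h13, h23, rfl⟩ := Finset.card_eq_three.mp h
        have hs : (inner M H).card + ((inner M H').card + (inner M H'').card) =
            (inner M F).card := by
          rw [← hsum, Finset.sum_insert (by simp [h12, h13]), Finset.sum_pair h23]
        obtain ⟨a, ha, ha'⟩ := hih H (by simp)
        obtain ⟨b, hb, hb'⟩ := hih H' (by simp)
        obtain ⟨c, hc, hc'⟩ := hih H'' (by simp)
        exact three_pow ha hb hc (by omega) hlt

end Pool.Agent.Helper82.TotSep
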