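import Mathlib
import Pool.Agent.Helper26.PolySep.Geo
import Pool.Agent.Helper82.TotSep.Face

/-!
# Local coordinates at the vertices of a simple polytope
-/

namespace Pool.Agent.Helper82.TotSep

open Set Pool.Agent.Helper70.Poly

variable {d : ℕ} {P : Set (Fin d → ℝ)}

/-- Local coordinates at all vertices of a simple polytope: at the vertex `v` the edge directions
`nb v i - v` form a basis, and all points of `P` have nonnegative coordinates. -/
structure Coord {d : ℕ} (P : Set (Fin d → ℝ)) where
  nb : P.extremePoints ℝ → Fin d → P.extremePoints ℝ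
  B : P.extremePoints ℝ → Module.Basis (Fin d) ℝ (Fin d → ℝ)
  adj : ∀ v i, (skel P).Adj v (nb v i)
  surj : ∀ v x, (skel P).Adj v x → ∃ i, nb v i = x
  basis : ∀ v i, B v i = (nb v i).1 - v.1
  nonneg : ∀ v, ∀ x ∈ P, ∀ i, 0 ≤ (B v).coord i (x - v.1)

lemma exists_coord (hP : IsSimplePolytope P) : Nonempty (Coord P) := by
  choose nb B h1 h2 h3 h4 using Pool.Agent.Helper26.PolySep.exists_local hP
  exact ⟨⟨nb, B, h1, h2, h3, h4⟩⟩

namespace Coord

variable (c : Coord P)

/-- the `i`-th coordinate of the vertex `x` at the vertex `v` -/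
noncomputable def co (v : P.extremePoints ℝ) (i : Fin d) (x : P.extremePoints ℝ) : ℝ :=
  (c.B v).coord i (x.1 - v.1)

open Classical in
/-- the coordinates at `v` which do not vanish at `x` -/
noncomputable def supp (v x : P.extremePoints ℝ) : Finset (Fin d) :=
  Finset.univ.filter fun i => c.co v i x ≠ 0

variable {c}

lemma mem_supp {v x : P.extremePoints ℝ} {i : Fin d} : i ∈ c.supp v x ↔ c.co v i x ≠ 0 := by
  simp [supp]

lemma co_nonneg (v : P.extremePoints ℝ) (i : Fin d) (x : P.extremePoints ℝ) : 0 ≤ c.co v i x :=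
  c.nonneg v _ (extremePoints_subset x.2) i

lemma mem_supp_iff_pos {v x : P.extremePoints ℝ} {i : Fin d} :
    i ∈ c.supp v x ↔ 0 < c.co v i x := by
  rw [mem_supp]
  exact ⟨fun h => lt_of_le_of_ne (co_nonneg v i x) (Ne.symm h), fun h => h.ne'⟩

lemma supp_subset_iff {v x : P.extremePoints ℝ} {S : Finset (Fin d)} :
    c.supp v x ⊆ S ↔ ∀ i, i ∉ S → c.co v i x = 0 := by
  constructor
  · intro h i hi
    by_contra hne
    exact hi (h (mem_supp.mpr hne))
  · intro h i hi
    by_contra hiS
    exact (mem_supp.mp hi) (h i hiS)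

lemma co_nb (v : P.extremePoints ℝ) (i j : Fin d) :
    c.co v i (c.nb v j) = if j = i then 1 else 0 := by
  rw [co, ← c.basis, Module.Basis.coord_apply, Module.Basis.repr_self, Finsupp.single_apply]

lemma co_self (v : P.extremePoints ℝ) (i : Fin d) : c.co v i v = 0 := by
  rw [co, sub_self, map_zero]

/-- The expansion of `x - v` in the coordinates at `v`. -/
lemma expand (v x : P.extremePoints ℝ) :
    x.1 - v.1 = ∑ i, c.co v i x • ((c.nb v i).1 - v.1) := by
  conv_lhs => rw [← (c.B v).sum_repr (x.1 - v.1)]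
  refine Finset.sum_congr rfl fun i _ => ?_
  rw [c.basis, co, Module.Basis.coord_apply]

lemma co_sub (v x y : P.extremePoints ℝ) (i : Fin d) :
    (c.B v).coord i (y.1 - x.1) = c.co v i y - c.co v i x := by
  rw [co, co, ← map_sub]
  congr 1
  abel

/-- The change of coordinates from `w` to `v`. -/
lemma co_change (v w x : P.extremePoints ℝ) (i : Fin d) :
    c.co v i x = c.co v i w + ∑ j, c.co w j x * (c.co v i (c.nb w j) - c.co v i w) := by
  have h := congrArg ((c.B v).coord i) (expand (c := c) w x)
  rw [co_sub, map_sum] at h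
  have h2 : ∀ j ∈ (Finset.univ : Finset (Fin d)),
      (c.B v).coord i (c.co w j x • ((c.nb w j).1 - w.1)) =
        c.co w j x * (c.co v i (c.nb w j) - c.co v i w) := by
    intro j _
    rw [map_smul, smul_eq_mul, co_sub]
  rw [Finset.sum_congr rfl h2] at h
  linarith

end Coord

end Pool.Agent.Helper82.TotSep
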