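import Mathlib
import Pool.Agent.Helper82.TotSep.Classes
import Pool.Agent.Helper82.TotSep.P.Trans
import Pool.Agent.Helper82.TotSep.P.Conn
import Pool.Agent.Helper82.TotSep.P.Ori

/-!
# When are as many nodes as possible totally separated
-/

namespace Pool.Agent.Helper82.TotSep

open Set Pool.Agent.Helper70.Poly

variable {d : ℕ} {P : Set (Fin d → ℝ)}

/-- The face structure of a simple polytope. -/
theorem exists_faceData (hP : IsSimplePolytope P) : Nonempty (FaceData (skel P) d) := by
  classical
  obtain ⟨c⟩ := exists_coord hP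
  obtain ⟨ht, hinj, hup, hup'⟩ := c.exists_height hP
  have hsupp_self : ∀ v, c.supp v v = ∅ := by
    intro v
    ext i
    rw [Coord.mem_supp, Coord.co_self]
    simp
  have hsupp_nb : ∀ v i, c.supp v (c.nb v i) = {i} := by
    intro v i
    ext j
    rw [Coord.mem_supp, Coord.co_nb, Finset.mem_singleton]
    constructor
    · intro h
      by_contra hne
      exact h (if_neg fun h' => hne h'.symm)
    · rintro rfl
      simp
  have hPe : ∀ x : P.extremePoints ℝ, x.1 ∈ P := fun x => extremePoints_subset x.2
  have heq_self : ∀ v w, c.supp v w = ∅ → w = v := by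
    intro v w h
    have h1 : ∀ i, c.co v i w = 0 := fun i =>
      (Coord.supp_subset_iff (c := c) (S := ∅)).mp (by rw [h]) i (Finset.notMem_empty _)
    have h2 := Coord.expand (c := c) v w
    simp only [h1, zero_smul, Finset.sum_const_zero] at h2
    exact Subtype.ext (sub_eq_zero.mp h2)
  have heq_nb : ∀ v w i, c.supp v w = {i} → w = c.nb v i := by
    intro v w i h
    set t := c.co v i w with ht'
    have h1 : ∀ j, j ≠ i → c.co v j w = 0 := fun j hj =>
      (Coord.supp_subset_iff (c := c) (S := {i})).mp (by rw [h]) j (by simpa using hj)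
    have ht0 : 0 < t := by
      apply Coord.mem_supp_iff_pos.mp
      rw [h]
      exact Finset.mem_singleton_self i
    have hti : t ≠ 0 := ht0.ne'
    have h2 : w.1 - v.1 = t • ((c.nb v i).1 - v.1) := by
      rw [Coord.expand (c := c) v w, Finset.sum_eq_single i]
      · intro j _ hj
        rw [h1 j hj, zero_smul]
      · intro h'
        exact absurd (Finset.mem_univ i) h'
    have hne : (c.nb v i).1 ≠ v.1 := fun h' => (c.adj v i).1 (Subtype.ext h').symm
    rcases lt_trichotomy t 1 with hlt | heq | hgt
    · exact (Pool.Agent.Helper26.PolySep.extreme_ne (hPe _) (hPe _) w.2 ht0 hlt hne h2).elim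
    · rw [heq, one_smul] at h2
      exact Subtype.ext (sub_left_inj.mp h2)
    · exfalso
      have h3 : (c.nb v i).1 - v.1 = t⁻¹ • (w.1 - v.1) := by
        rw [h2, smul_smul, inv_mul_cancel₀ hti, one_smul]
      have hwv : w.1 ≠ v.1 := by
        intro h'
        rw [h', sub_self] at h3
        rw [smul_zero] at h3
        exact hne (sub_eq_zero.mp h3)
      exact Pool.Agent.Helper26.PolySep.extreme_ne (hPe w) (hPe v) (c.nb v i).2
        (inv_pos.mpr ht0) (inv_lt_one_of_one_lt₀ hgt) hwv h3
  exact ⟨{  nb := c.nb
            supp := c.supp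
            adj_nb := c.adj
            nb_surj := c.surj
            supp_self := hsupp_self
            supp_nb := hsupp_nb
            eq_self := heq_self
            eq_nb := heq_nb
            trans := fun v w S h => c.trans v w S h
            conn := fun v S T C hT hC => c.conn hP v S T C hT hC
            compl := fun v S l hl C hC => c.compl hP v S l hl C hC
            ht := ht
            ht_inj := hinj
            up := hup
            up_of := hup'
            ori := fun v i j hij => c.ori (fun v w S h => c.trans v w S h) v i j hij }⟩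

/-- If `n ≥ 2` nodes are totally separated by `n < 2 ^ d` nodes in the graph of a simple
`d`-polytope, then `n = 2 ^ d - 2 ^ j` for some `j < d`. -/
theorem eq_two_pow_sub {n d : ℕ} (hn : 2 ≤ n) (hlt : n < 2 ^ d) (h : n ∈ sepCards n d) :
    ∃ j < d, n + 2 ^ j = 2 ^ d := by
  classical
  obtain ⟨P, hP, M, N, hM, hN, hsep⟩ := h
  have hPo : IsPoly P := hP.1
  have hfin : Finite (P.extremePoints ℝ) := hPo.finite_extremePoints
  have : Fintype (P.extremePoints ℝ) := Fintype.ofFinite _
  obtain ⟨L⟩ := exists_faceData hP
  have hNne : N.Nonempty := Finset.card_pos.mp (by omega)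
  obtain ⟨a0, ha0⟩ := hNne
  have : Nonempty (P.extremePoints ℝ) := ⟨a0⟩
  have hNM : ∀ a ∈ N, a ∉ M := fun a ha haM => (Finset.disjoint_left.mp hsep.1) haM ha
  -- labels
  let H := delVerts (skel P) (M : Set (P.extremePoints ℝ))
  let lab : P.extremePoints ℝ → P.extremePoints ℝ := fun x =>
    if h : ∃ a, a ∈ N ∧ H.Reachable a x then h.choose else a0
  have hlab_eq : ∀ x a, a ∈ N → H.Reachable a x → lab x = a := by
    intro x a ha hax
    have h : ∃ a, a ∈ N ∧ H.Reachable a x := ⟨a, ha, hax⟩
    have h1 : lab x = h.choose := dif_pos h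
    rw [h1]
    by_contra hne
    exact hsep.not_reachable h.choose_spec.1 ha hne (h.choose_spec.2.trans hax.symm)
  have hlab : ∀ x y, (skel P).Adj x y → x ∉ M → y ∉ M → lab x = lab y := by
    intro x y hxy hx hy
    have hadj : H.Adj x y := ⟨hxy, by simpa using hx, by simpa using hy⟩
    by_cases h : ∃ a, a ∈ N ∧ H.Reachable a x
    · obtain ⟨a, ha, hax⟩ := h
      rw [hlab_eq x a ha hax, hlab_eq y a ha (hax.trans hadj.reachable)]
    · have h' : ¬ ∃ a, a ∈ N ∧ H.Reachable a y := by
        rintro ⟨a, ha, hay⟩
        exact h ⟨a, ha, hay.trans hadj.symm.reachable⟩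
      simp only [lab]
      rw [dif_neg h, dif_neg h']
  have hinner : inner M (Finset.univ : Finset (P.extremePoints ℝ)) = M := by
    ext x
    rw [mem_inner]
    simp
  have hlabs : N ⊆ labs M lab Finset.univ := by
    intro a ha
    exact mem_labs.mpr ⟨a, Finset.mem_univ a, hNM a ha,
      hlab_eq a a ha (SimpleGraph.Reachable.refl _)⟩
  have hT : Tight L M lab d (Finset.univ : Finset (P.extremePoints ℝ)) := by
    refine ⟨isFace_univ, ?_, ?_⟩
    · rw [hinner]
      omega
    · rw [hinner, hM, ← hN]
      exact Finset.card_le_card hlabs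
  have h := Tight.eq_two_pow_sub hlab d Finset.univ hT (by rw [hinner]; omega)
  rwa [hinner, hM] at h

end Pool.Agent.Helper82.TotSep
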