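import Mathlib
import Pool.Agent.Results.MP_3f7fac_co.LargeN
import Pool.Agent.Results.MP_3f7fac_co.SmallN
import Pool.Agent.Helper82.TotSep.Final
import Pool.Agent.Helper82.TotSep.P.Low3

/-!
# Degree of total separability for simple polytopes: dimension three

All values of `s(n, 𝒮^3)`.
-/

namespace Pool.Agent.Helper82.TotSep.DimensionThree

open Pool.Agent.Helper70.Poly Pool.Agent.Helper82.TotSep

/-- **Main theorem.**  `s(n, 𝒮^3)` is `1` for `n = 1, 2`, it is `2` for `n = 3`, it is `4` for
`n = 4, 5` and it is `n` for `n ≥ 6`. -/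
theorem result (n : ℕ) (hn : 1 ≤ n) :
    IsGreatest (sepCards n 3)
      (if n ≤ 2 then 1 else if n = 3 then 2 else if n = 5 then 4 else n) := by
  split_ifs with h2 h3 h5
  · exact ⟨one_mem_sepCards h2, sepCards_le_one (by omega)⟩
  · subst h3
    exact Pool.Agent.Results.MP_3f7fac_co.SmallN.result 3 2 3 le_rfl (by decide) (by decide)
      (by omega)
  · subst h5
    refine ⟨four_mem_sepCards, fun k hk => ?_⟩
    have h1 := (Pool.Agent.Results.MP_3f7fac_co.LargeN.result 3 (by omega)).1 5 (by omega) k hk
    rcases Nat.lt_or_ge k 5 with h | h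
    · omega
    · exfalso
      have h4 : k = 5 := by omega
      subst h4
      obtain ⟨j, hj, hj'⟩ := eq_two_pow_sub (by omega) (by norm_num) hk
      have h6 : j = 0 ∨ j = 1 ∨ j = 2 := by omega
      rcases h6 with rfl | rfl | rfl <;> norm_num at hj'
  · refine (Pool.Agent.Results.MP_3f7fac_co.LargeN.result 3 (by omega)).2 n ?_
    rcases Nat.lt_or_ge n 6 with h | h
    · right
      refine ⟨0, ?_⟩
      have h4 : n = 4 := by omega
      subst h4
      simp
    · left
      norm_num
      omega

end Pool.Agent.Helper82.TotSep.DimensionThree
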